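import Pool.Agent.Helper20.QP.St3

/-!
# Project QD, PART P: the module LNG (the other lengths)
-/

set_option autoImplicit false

open Filter Topology Matrix Set Metric MeasureTheory
open scoped ComplexConjugate ENNReal

namespace Pool.Agent.Helper84.QP

open Pool.Agent.Helper35.PM
open Pool.Agent.Helper20.QD
open Pool.Agent.Helper20.QP
open Pool.Agent.Helper68.QC (nq Bel InvB Intw)
open Pool.Agent.Helper85.QT (HN)

theorem isOpen_Sm_LNG (m : ℝ) : IsOpen (Sm m) := by
  have h1 : IsOpen {w : ℂ | 0 < w.im} := isOpen_lt continuous_const Complex.continuous_im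
  have h2 : IsOpen {w : ℂ | w.im < m} := isOpen_lt Complex.continuous_im continuous_const
  exact h1.inter h2

/-- the inverse of the strip coordinate -/
theorem inv_LNG {A : SL} {l : ℝ} {q : ℂ → ℂ} (h : SC A l q) :
    ∃ g : ℂ → ℂ, DifferentiableOn ℂ g D ∧ MapsTo g D (Sm (Real.pi / l)) ∧
      (∀ z ∈ D, q (g z) = z) ∧ ∀ w ∈ Sm (Real.pi / l), g (q w) = w := by
  have hl := h.l0
  have hinj := h.bij.injOn
  refine ⟨Function.invFunOn q (Sm (Real.pi / l)), ?_, ?_, ?_, ?_⟩
  · intro z hz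
    obtain ⟨w, hw, rfl⟩ := h.bij.surjOn hz
    have hgw : Function.invFunOn q (Sm (Real.pi / l)) (q w) = w := hinj.leftInvOn_invFunOn hw
    have hnh : Sm (Real.pi / l) ∈ 𝓝 w := (isOpen_Sm_LNG _).mem_nhds hw
    have hdiff : DifferentiableAt ℂ q w := (h.hol w hw).differentiableAt hnh
    have hder : deriv q w ≠ 0 := by
      intro h0
      have h1 := h.den w hw
      rw [h0, norm_zero, zero_mul, zero_div] at h1
      have h2 : 0 < Real.sin (l * w.im) := by
        refine Real.sin_pos_of_pos_of_lt_pi (mul_pos hl hw.1) ?_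
        have := hw.2
        rw [lt_div_iff₀ hl] at this
        linarith
      have h3 : 0 < l / Real.sin (l * w.im) := div_pos hl h2
      linarith
    have hst : HasStrictDerivAt q (deriv q w) w := by
      have han : AnalyticAt ℂ q w := by
        have := h.hol.analyticAt hnh
        exact this
      exact han.hasStrictDerivAt
    have hmap : map q (𝓝 w) = 𝓝 (q w) := hst.map_nhds_eq hder
    have hcont : ContinuousAt (Function.invFunOn q (Sm (Real.pi / l))) (q w) := by
      intro U hU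
      rw [hgw] at hU
      have h1 : U ∩ Sm (Real.pi / l) ∈ 𝓝 w := inter_mem hU hnh
      have h2 : q '' (U ∩ Sm (Real.pi / l)) ∈ 𝓝 (q w) := by
        rw [← hmap]
        exact image_mem_map h1
      refine mem_map.2 (mem_of_superset h2 ?_)
      rintro _ ⟨u, ⟨hu1, hu2⟩, rfl⟩
      change Function.invFunOn q (Sm (Real.pi / l)) (q u) ∈ U
      rw [hinj.leftInvOn_invFunOn hu2]
      exact hu1
    have hev : ∀ᶠ y in 𝓝 (q w), q (Function.invFunOn q (Sm (Real.pi / l)) y) = y := by
      filter_upwards [isOpen_ball.mem_nhds hz] with y hy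
      exact h.bij.surjOn.rightInvOn_invFunOn hy
    have hfin := HasDerivAt.of_local_left_inverse (f := q) (f' := deriv q w) hcont
      (by rw [hgw]; exact hdiff.hasDerivAt) hder hev
    exact hfin.differentiableAt.differentiableWithinAt
  · exact h.bij.surjOn.mapsTo_invFunOn
  · intro z hz
    exact h.bij.surjOn.rightInvOn_invFunOn hz
  · intro w hw
    exact hinj.leftInvOn_invFunOn hw

theorem hLNG (hSUB : StSUB) (hCOL : StCOL) (hTHN3 : StTHN3) : StLNG := by
  intro Γ _ σ σ' α β l l' l1 l1' k1 a q q' q1 q1' μs hTF hF hF' hα hβ hαβ hq hq' hq1 hq1' hl' hl1'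
    hBel hk1 hI hD hdif hsub
  obtain ⟨H, hH⟩ : ∃ H : ℂ ≃ₜ ℂ, H = nq μs := ⟨_, rfl⟩
  rw [← hH] at hI hD hdif hsub
  have hpi := Real.pi_gt_d2
  have hl1p := hq1.l0
  have hl1p' := hq1'.l0
  have hM : 257 < Real.pi / l1' := by
    rw [lt_div_iff₀ hl1p']
    nlinarith
  have hSm : ∀ ζ ∈ Sm (Real.pi / l1' - 128), ζ + 64 * Complex.I ∈ Sab 64 (Real.pi / l1' - 64) := by
    rintro ζ ⟨h1, h2⟩
    constructor
    · simp
      exact h1
    · simp
      linarith
  have hSab : Sab 64 (Real.pi / l1' - 64) ⊆ Sm (Real.pi / l1') := by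
    rintro w ⟨h1, h2⟩
    exact ⟨by linarith, by linarith⟩
  have hcol := (hCOL Γ σ' hF' hTF α β l' l1' q' q1' hα hβ hq' hq1' hl' (by linarith)).2 hαβ
  -- the points of the collar of `β` are not in the bad set
  have hbad : ∀ w ∈ Sab 64 (Real.pi / l1' - 64), q1' w ∈ D \ ⋃ γ : Γ, mob (σ' γ) '' (H ''
      (q '' {w | a ≤ w.im ∧ w.im ≤ Real.pi / l - a})) := by
    intro w hw
    refine ⟨hq1'.bij.mapsTo (hSab hw), ?_⟩
    intro hmem
    obtain ⟨γ, hγ⟩ := mem_iUnion.1 hmem
    exact (Set.disjoint_left.1 (hcol γ)) (image_mono hsub hγ) (mem_image_of_mem _ hw)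
  obtain ⟨g, hgd, hgm, hgr, hgl⟩ := inv_LNG hq1
  have hHD : ∀ y ∈ D, H.symm y ∈ D := by
    intro y hy
    rw [mem_ball_zero_iff] at hy ⊢
    have := (hD (H.symm y)).1 (by rw [H.apply_symm_apply]; exact hy)
    exact this
  have hper1 : ∀ w ∈ Sm (Real.pi / l1), w + 1 ∈ Sm (Real.pi / l1) := by
    rintro w ⟨h1, h2⟩
    exact ⟨by simpa using h1, by simpa using h2⟩
  have hψ : HN (Real.pi / l1' - 128) (fun ζ => g (H.symm (q1' (ζ + 64 * Complex.I)))) := by
    refine ⟨?_, ?_, ?_⟩
    · have h1 : DifferentiableOn ℂ (fun ζ : ℂ => q1' (ζ + 64 * Complex.I))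
          (Sm (Real.pi / l1' - 128)) := by
        refine hq1'.hol.comp (by fun_prop) ?_
        intro ζ hζ
        exact hSab (hSm ζ hζ)
      have h2 : DifferentiableOn ℂ (fun ζ : ℂ => H.symm (q1' (ζ + 64 * Complex.I)))
          (Sm (Real.pi / l1' - 128)) :=
        hdif.comp h1 fun ζ hζ => hbad _ (hSm ζ hζ)
      exact hgd.comp h2 fun ζ hζ => hHD _ (hbad _ (hSm ζ hζ)).1
    · intro ζ hζ ζ' hζ' he
      have e1 : H.symm (q1' (ζ + 64 * Complex.I)) = H.symm (q1' (ζ' + 64 * Complex.I)) := by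
        have h1 := congrArg q1 he
        simp only at h1
        rw [hgr _ (hHD _ (hbad _ (hSm ζ hζ)).1), hgr _ (hHD _ (hbad _ (hSm ζ' hζ')).1)] at h1
        exact h1
      have e2 := H.symm.injective e1
      have e3 := hq1'.bij.injOn (hSab (hSm ζ hζ)) (hSab (hSm ζ' hζ')) e2
      exact add_right_cancel e3
    · intro ζ hζ
      have hw := hSm ζ hζ
      have hy := (hbad _ hw).1
      have hz := hHD _ hy
      have e0 : ζ + 1 + 64 * Complex.I = ζ + 64 * Complex.I + 1 := by ring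
      rw [e0, hq1'.per _ (hSab hw)]
      have hden : Pool.Agent.Helper68.QC.den (σ β) (H.symm (q1' (ζ + 64 * Complex.I))) ≠ 0 :=
        ((hSUB.1 (σ β) (hF.su β)).2.1 _ (ball_subset_closedBall hz))
      have e1 := (hI β).2.1 _ hden
      rw [H.apply_symm_apply] at e1
      have e2 : H.symm (mob (σ' β) (q1' (ζ + 64 * Complex.I))) =
          mob (σ β) (H.symm (q1' (ζ + 64 * Complex.I))) := by
        rw [H.symm_apply_eq]
        exact e1.symm
      rw [e2]
      have e3 := hq1.per _ (hgm hz)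
      rw [hgr _ hz] at e3
      rw [← e3, hgl _ (hper1 _ (hgm hz))]
  have hfin := hTHN3.2.1 (Real.pi / l1' - 128) (Real.pi / l1) _ (by linarith) hψ
    (fun ζ hζ => hgm (hHD _ (hbad _ (hSm ζ hζ)).1))
  have h1 : Real.pi / (2 * l1') ≤ Real.pi / l1 := by
    have h2 : Real.pi / (2 * l1') = Real.pi / l1' / 2 := by
      field_simp
    rw [h2]
    linarith
  rw [div_le_div_iff_of_pos_left Real.pi_pos (by positivity) hl1p] at h1
  exact h1

end Pool.Agent.Helper84.QP
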